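import Pool.Agent.H34.CU.Common3

/-!
MP_1fcb73_nt: circular permutations of `1, …, n` in which at least `n ^ c` of the numbers `2ab + 1`
(`a`, `b` neighbours) are prime, among them all those with an entry up to `(log n)^A`, all those with
an entry up to `n ^ c` have only prime factors above `n ^ c` (hence a bounded number of them), and all
numbers are squarefree, with few prime factors, all of them above `(log n)^(6/5)`.
-/

set_option autoImplicit false

namespace Pool.Agent.Results.MP_1fcb73_nt.PrimesAtSmallEntries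

/-- There are `c > 0` and `R` such that for every `ε > 0` there is `r` such that for every `A` and all
large `n` some permutation of `1, …, n`, read cyclically (`σ i + 1` is the entry at place `i`,
`finRotate n i` is the next place), has the following properties. At least `n ^ c` of its `n`
numbers `2ab + 1` (`a`, `b` neighbours) are prime. For any two neighbours `a`, `b` the number
`2ab + 1` is squarefree, all its prime factors are greater than `(log n) ^ (6/5)`, it has at most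
`3000 log log n` prime factors, it is of the form `u w` with `u ≤ n ^ ε` and `w` with at most `r`
prime factors; if `a ≤ n ^ c` or `b ≤ n ^ c` it has at most `R` prime factors, all of them greater
than `n ^ c`; if `a ≤ (log n) ^ A` or `b ≤ (log n) ^ A` it is prime. -/
theorem result : ∃ (c : ℝ) (R : ℕ), 0 < c ∧ ∀ ε : ℝ, 0 < ε → ∃ r : ℕ, ∀ A : ℕ, ∃ n₀ : ℕ,
    ∀ n : ℕ, n₀ ≤ n → ∃ σ : Equiv.Perm (Fin n),
      (n : ℝ) ^ c ≤ ((Finset.univ.filter (fun i : Fin n =>
        (2 * ((σ i).val + 1) * ((σ (finRotate n i)).val + 1) + 1).Prime)).card : ℝ) ∧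
      ∀ i : Fin n, ∀ a b : ℕ,
      a = (σ i).val + 1 → b = (σ (finRotate n i)).val + 1 →
      Squarefree (2 * a * b + 1) ∧
      (∀ p : ℕ, p.Prime → p ∣ 2 * a * b + 1 → Real.log n ^ (6 / 5 : ℝ) < p) ∧
      ((2 * a * b + 1).primeFactors.card : ℝ) ≤ 3000 * Real.log (Real.log n) ∧
      (∃ u w : ℕ, 2 * a * b + 1 = u * w ∧ (u : ℝ) ≤ (n : ℝ) ^ ε ∧ w.primeFactors.card ≤ r) ∧
      ((a : ℝ) ≤ (n : ℝ) ^ c ∨ (b : ℝ) ≤ (n : ℝ) ^ c →
        (2 * a * b + 1).primeFactors.card ≤ R ∧
        ∀ p : ℕ, p.Prime → p ∣ 2 * a * b + 1 → (n : ℝ) ^ c < (p : ℝ)) ∧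
      ((a : ℝ) ≤ Real.log n ^ A ∨ (b : ℝ) ≤ Real.log n ^ A → (2 * a * b + 1).Prime) := by
  obtain ⟨c, R, hc, H⟩ := Pool.Agent.H34.CU.common3
  refine ⟨c, R, hc, fun ε hε => ?_⟩
  obtain ⟨r, hr⟩ := H ε hε
  refine ⟨r, fun A => ?_⟩
  obtain ⟨n₀, h⟩ := hr A
  refine ⟨n₀, fun n hn => ?_⟩
  obtain ⟨σ, hσ0, hσ⟩ := h n hn
  refine ⟨σ, hσ0, fun i a b ha hb => ?_⟩
  obtain ⟨h1, h1', h2, h3, h4, h5⟩ := hσ i
  rw [← ha, ← hb] at h1 h1' h2 h3 h4 h5
  exact ⟨h2, h3, h4, h5, h1', h1⟩

end Pool.Agent.Results.MP_1fcb73_nt.PrimesAtSmallEntries
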