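import Pool.Agent.H34.CP.Smooth
import Pool.Agent.H34.CR.Super
import Pool.Agent.H47.CP.Expl
import Pool.Agent.H47.CP.Sqf

/-!
MP_1fcb73_nt: circular permutations of `1, …, n` whose numbers `2ab + 1` (`a`, `b` neighbours) are
squarefree, have few prime factors, have only large prime factors, or avoid given primes.
-/

set_option autoImplicit false

namespace Pool.Agent.Results.MP_1fcb73_nt.SquarefreeAnalogue

/-- Some permutation of `1, …, n`, read cyclically, has all its `n` numbers `2ab + 1`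
(`a`, `b` neighbours) with the property `P`. Here `π i + 1` is the entry at place `i`, and
`finRotate n i` is the next place (the last place is followed by the first one). For `P` = prime
this is a good permutation in the sense of the problem. -/
def HasCircular (n : ℕ) (P : ℕ → Prop) : Prop :=
  ∃ π : Equiv.Perm (Fin n), ∀ i : Fin n,
    P (2 * ((π i).val + 1) * ((π (finRotate n i)).val + 1) + 1)

/-- (1) All numbers can be made squarefree if and only if `n ≠ 4`.
(2) For every `ε > 0` there are `C` and `r` such that for `n ≥ 5` they can be made squarefree with at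
most `C log log n` prime factors, and each of them of the form `u w` with `u ≤ n ^ ε` and `w` with
at most `r` prime factors.
(3) For every `ε > 0` there are `n₀`, `C` and `r` such that for `n ≥ n₀` they can be made to have all
these properties and, in addition, only prime factors `> (log n) ^ (6/5)`.
(4) If the finite set `S` of primes has product `M` and `M (M - 1) ≤ n` the numbers can be made free
of prime factors in `S`.
(5) For every `n` the numbers can be made free of all primes `p` with `16 ^ p ≤ n`.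
(6) For every `n ≥ 2` the numbers can be made free of all primes `p` with `p ≡ 3 (mod 8)`. -/
theorem result :
    (∀ n : ℕ, 1 ≤ n → (HasCircular n Squarefree ↔ n ≠ 4)) ∧
    (∀ ε : ℝ, 0 < ε → ∃ C : ℝ, ∃ r : ℕ, ∀ n : ℕ, 5 ≤ n → HasCircular n (fun m =>
      Squarefree m ∧ (m.primeFactors.card : ℝ) ≤ C * Real.log (Real.log n) ∧
      ∃ u w : ℕ, m = u * w ∧ (u : ℝ) ≤ (n : ℝ) ^ ε ∧ w.primeFactors.card ≤ r)) ∧
    (∀ ε : ℝ, 0 < ε → ∃ (n₀ : ℕ) (C : ℝ) (r : ℕ), ∀ n : ℕ, n₀ ≤ n → HasCircular n (fun m =>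
      Squarefree m ∧ (∀ p : ℕ, p.Prime → p ∣ m → (Real.log n) ^ (6 / 5 : ℝ) < p) ∧
      (m.primeFactors.card : ℝ) ≤ C * Real.log (Real.log n) ∧
      ∃ u w : ℕ, m = u * w ∧ (u : ℝ) ≤ (n : ℝ) ^ ε ∧ w.primeFactors.card ≤ r)) ∧
    (∀ S : Finset ℕ, (∀ p ∈ S, p.Prime) → ∀ n : ℕ, 1 ≤ n →
      (∏ p ∈ S, p) * ((∏ p ∈ S, p) - 1) ≤ n → HasCircular n (fun m => ∀ p ∈ S, ¬ p ∣ m)) ∧
    (∀ n : ℕ, 1 ≤ n → HasCircular n (fun m => ∀ p : ℕ, p.Prime → p ∣ m → n < 16 ^ p)) ∧
    (∀ n : ℕ, 2 ≤ n → HasCircular n (fun m => ∀ p : ℕ, p.Prime → p % 8 = 3 → ¬ p ∣ m)) := by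
  refine ⟨?_, ?_, ?_, ?_, ?_, ?_⟩
  · exact fun n hn => Pool.Agent.H47.CP.squarefree_iff n hn
  · exact fun ε hε => Pool.Agent.H34.CP.rough_of_squarefree
      (fun n hn => (Pool.Agent.H47.CP.squarefree_iff n (by omega)).2 (by omega)) ε hε
  · exact fun ε hε => Pool.Agent.H34.CR.super ε hε
  · intro S hS n hn h
    exact Pool.Agent.H34.CP.hasCircular_of n hn (fun m => ∀ p ∈ S, ¬ p ∣ m)
      (Pool.Agent.H34.CP.main S hS n hn h)
  · intro n hn
    exact Pool.Agent.H34.CP.hasCircular_of n hn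
      (fun m => ∀ p : ℕ, p.Prime → p ∣ m → n < 16 ^ p) (Pool.Agent.H34.CP.main_log n hn)
  · exact fun n hn => Pool.Agent.H47.CP.expl_exists n hn

end Pool.Agent.Results.MP_1fcb73_nt.SquarefreeAnalogue
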